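import Mathlib

open Set Cardinal TopologicalSpace

namespace Pool.Agent.Results.MP_254f8a_gt.Bound

universe u

/-- separately continuous real functions on the square of `X` -/
def SC (X : Type u) [TopologicalSpace X] : Set (X × X → ℝ) :=
  {f | (∀ x, Continuous fun y => f (x, y)) ∧ ∀ y, Continuous fun x => f (x, y)}

/-- `X` has a base of size at most `κ` -/
def WeightLe (X : Type u) [TopologicalSpace X] (κ : Cardinal.{u}) : Prop :=
  ∃ B : Set (Set X), IsTopologicalBasis B ∧ #B ≤ κ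

/-- `X` is covered by the closures of at most `θ` countable subsets -/
def Covered (X : Type u) [TopologicalSpace X] (θ : Cardinal.{u}) : Prop :=
  ∃ T : Set (Set X), #T ≤ θ ∧ (∀ t ∈ T, t.Countable) ∧ ∀ y, ∃ t ∈ T, y ∈ closure t

/-- some Tychonoff space of weight at most `κ` has a discrete subspace of size `l` in `SC_p` -/
def Has (κ l : Cardinal.{u}) : Prop :=
  ∃ (X : Type u) (_ : TopologicalSpace X), T35Space X ∧ WeightLe X κ ∧
    ∃ D : Set (X × X → ℝ), D ⊆ SC X ∧ DiscreteTopology D ∧ #D = l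

theorem iso {Z : Type u} (D : Set (Z → ℝ)) [DiscreteTopology D] (b : D) :
    ∃ P : List Z, ∀ a : D, (∀ p ∈ P, a.1 p = b.1 p) → a = b := by
  obtain ⟨U, hU, hUb⟩ := isOpen_induced_iff.1 (isOpen_discrete ({b} : Set D))
  have hb : b.1 ∈ U := by
    have : b ∈ ((↑) ⁻¹' U : Set D) := by rw [hUb]; rfl
    exact this
  obtain ⟨I, v, hv, hsub⟩ := isOpen_pi_iff.1 hU _ hb
  refine ⟨I.toList, fun a ha => ?_⟩
  have : a ∈ ((↑) ⁻¹' U : Set D) := hsub fun p hp => by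
    rw [ha p (Finset.mem_toList.2 hp)]
    exact (hv p hp).2
  rw [hUb] at this
  exact this

theorem bound {X : Type u} [TopologicalSpace X] (κ θ : Cardinal.{u}) (hκ : ℵ₀ ≤ κ)
    (hw : WeightLe X κ) (hc : Covered X θ) (D : Set (X × X → ℝ)) (hD : D ⊆ SC X)
    [DiscreteTopology D] : #D ≤ max θ (κ ^ ℵ₀) := by
  obtain ⟨B, hB, hBκ⟩ := hw
  obtain ⟨T, hTθ, hTc, hT⟩ := hc
  choose P hP using iso D
  have hs : ∀ t : T, ∃ s : ℕ → Option X, ∀ z ∈ t.1, ∃ j, s j = some z := fun t => by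
    have : Countable t.1 := (hTc t.1 t.2).to_subtype
    obtain ⟨s, hs⟩ := exists_surjective_nat (Option t.1)
    refine ⟨fun j => (s j).map (↑), fun z hz => ?_⟩
    obtain ⟨j, hj⟩ := hs (some ⟨z, hz⟩)
    exact ⟨j, by simp [hj]⟩
  choose s hs using hs
  have hk : ∀ (f : D) (p : X × X), ∃ k : T × (ULift.{u} (ℕ × ℕ) → B) × ULift.{u} (ℕ → ℝ),
      p.2 ∈ closure k.1.1 ∧ (∀ i, p.1 ∈ (k.2.1 i).1) ∧
      ∀ x, (∀ i, x ∈ (k.2.1 i).1) → ∀ j z, s k.1 j = some z → f.1 (x, z) = k.2.2.down j := by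
    intro f p
    obtain ⟨t, ht, hpt⟩ := hT p.2
    let z : ℕ → X := fun j => (s ⟨t, ht⟩ j).getD p.2
    have hW : ∀ i : ULift.{u} (ℕ × ℕ), ∃ W : B, p.1 ∈ W.1 ∧ ∀ x ∈ W.1,
        dist (f.1 (x, z i.down.1)) (f.1 (p.1, z i.down.1)) < 1 / ((i.down.2 : ℝ) + 1) := fun i => by
      have hopen : IsOpen {x | dist (f.1 (x, z i.down.1)) (f.1 (p.1, z i.down.1)) <
          1 / ((i.down.2 : ℝ) + 1)} :=
        isOpen_lt (((hD f.2).2 _).dist continuous_const) continuous_const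
      obtain ⟨W, hWB, hp, hsub⟩ := hB.exists_subset_of_mem_open
        (show p.1 ∈ {x | dist (f.1 (x, z i.down.1)) (f.1 (p.1, z i.down.1)) <
          1 / ((i.down.2 : ℝ) + 1)} by
          simp only [mem_setOf_eq, dist_self]
          positivity) hopen
      exact ⟨⟨W, hWB⟩, hp, hsub⟩
    choose W hW1 hW2 using hW
    refine ⟨(⟨t, ht⟩, W, ⟨fun j => f.1 (p.1, z j)⟩), hpt, hW1, fun x hx j y hy => ?_⟩
    have hz : z j = y := by simp only [z]; rw [hy]; rfl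
    show f.1 (x, y) = f.1 (p.1, z j)
    rw [← hz]
    refine eq_of_forall_dist_le fun ε hε => ?_
    obtain ⟨m, hm⟩ := exists_nat_one_div_lt hε
    exact ((hW2 ⟨(j, m)⟩ x (hx _)).trans hm).le
  choose k hk1 hk2 hk3 using hk
  have key : ∀ (f g : D) (p q : X × X), k f p = k g q → f.1 q = g.1 q := by
    intro f g p q h
    have he : EqOn (fun y => f.1 (q.1, y)) (fun y => g.1 (q.1, y)) (k g q).1.1 := by
      intro y hy
      obtain ⟨j, hj⟩ := hs _ y hy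
      have h1 := hk3 g q q.1 (hk2 g q) j y hj
      have h2 := hk3 f p q.1 (by rw [h]; exact hk2 g q) j y (by rw [h]; exact hj)
      rw [h] at h2
      exact h2.trans h1.symm
    exact he.closure ((hD f.2).1 _) ((hD g.2).1 _) (hk1 g q)
  have hinj : Function.Injective fun b : D => (P b).map (k b) := by
    intro a b hab
    refine hP b a fun q hq => ?_
    have : k b q ∈ (P a).map (k a) := by
      have h : (P a).map (k a) = (P b).map (k b) := hab
      rw [h]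
      exact List.mem_map_of_mem hq
    obtain ⟨p, _, hp⟩ := List.mem_map.1 this
    exact key a b p q hp
  have hm : ℵ₀ ≤ max θ (κ ^ ℵ₀) :=
    le_max_of_le_right (hκ.trans (self_le_power κ one_le_aleph0))
  refine (mk_le_of_injective hinj).trans ((mk_list_le_max _).trans (max_le hm ?_))
  have h1 : #(ULift.{u} (ℕ × ℕ) → B) ≤ κ ^ ℵ₀ := by
    rw [← power_def]
    have : #(ULift.{u} (ℕ × ℕ)) = ℵ₀ := by simp
    rw [this]
    exact power_le_power_right hBκ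
  have h2 : #(ULift.{u} (ℕ → ℝ)) ≤ κ ^ ℵ₀ := by
    have : #(ULift.{u} (ℕ → ℝ)) = 2 ^ ℵ₀ := by simp [mk_real]
    rw [this]
    exact power_le_power_right ((by exact_mod_cast (natCast_lt_aleph0 (n := 2)).le : (2 : Cardinal) ≤ ℵ₀).trans hκ)
  rw [mk_prod, mk_prod]
  simp only [lift_id]
  calc _ ≤ max θ (κ ^ ℵ₀) * (max θ (κ ^ ℵ₀) * max θ (κ ^ ℵ₀)) :=
        mul_le_mul' (le_max_of_le_left hTθ)
          (mul_le_mul' (le_max_of_le_right h1) (le_max_of_le_right h2))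
    _ = _ := by rw [mul_eq_self hm, mul_eq_self hm]

/-- every Tychonoff space of weight at most `κ` is covered by `θ` closures of countable sets -/
def Cov (κ θ : Cardinal.{u}) : Prop :=
  ∀ (X : Type u) [TopologicalSpace X], T35Space X → WeightLe X κ → Covered X θ

theorem fail (κ θ : Cardinal.{u}) (hκ : ℵ₀ ≤ κ) (h : Cov κ θ) (h1 : θ < 2 ^ κ)
    (h2 : κ ^ ℵ₀ < 2 ^ κ) : ¬ Has κ (2 ^ κ) := by
  rintro ⟨X, _, hX, hw, D, hD, _, hl⟩
  have := bound κ θ hκ hw (h X hX hw) D hD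
  rw [hl] at this
  exact (max_lt h1 h2).not_ge this

/-- consequences -/
theorem consequences :
    (∀ κ θ : Cardinal.{u}, ℵ₀ ≤ κ → ∀ (X : Type u) [TopologicalSpace X], WeightLe X κ →
      Covered X θ → ∀ D : Set (X × X → ℝ), D ⊆ SC X → DiscreteTopology D →
      #D ≤ max θ (κ ^ ℵ₀)) ∧
    (∀ κ θ : Cardinal.{u}, ℵ₀ ≤ κ → Cov κ θ → θ < 2 ^ κ → κ ^ ℵ₀ < 2 ^ κ → ¬ Has κ (2 ^ κ)) ∧
    (Cov.{u} (ℵ_ 1) (ℵ_ 2) → (ℵ_ 2 : Cardinal.{u}) < 2 ^ (ℵ_ 1 : Cardinal.{u}) →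
      (2 : Cardinal.{u}) ^ (ℵ₀ : Cardinal.{u}) < 2 ^ (ℵ_ 1 : Cardinal.{u}) →
      ¬ ∀ κ : Cardinal.{u}, ℵ₀ ≤ κ → Has κ (2 ^ κ)) := by
  refine ⟨fun κ θ hκ X _ hw hc D hD _ => bound κ θ hκ hw hc D hD, fail, fun h h1 h2 hq => ?_⟩
  refine fail _ _ (aleph0_le_aleph 1) h h1 (lt_of_le_of_lt ?_ h2) (hq _ (aleph0_le_aleph 1))
  rw [two_power_aleph0]
  exact (power_le_power_right aleph_one_le_continuum).trans continuum_power_aleph0.le

/-- Upper bound for discrete subspaces of `SC_p`. -/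
theorem result (κ θ : Cardinal.{u}) (hκ : ℵ₀ ≤ κ) (X : Type u) [TopologicalSpace X]
    (hw : WeightLe X κ) (hc : Covered X θ) (D : Set (X × X → ℝ)) (hD : D ⊆ SC X)
    (hd : DiscreteTopology D) : #D ≤ max θ (κ ^ ℵ₀) :=
  bound κ θ hκ hw hc D hD

end Pool.Agent.Results.MP_254f8a_gt.Bound
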