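import Mathlib

open Set Cardinal TopologicalSpace

namespace Pool.Agent.Results.MP_254f8a_gt.Tree

universe u

/-- separately continuous real functions on the square of `X` -/
def SC (X : Type u) [TopologicalSpace X] : Set (X × X → ℝ) :=
  {f | (∀ x, Continuous fun y => f (x, y)) ∧ ∀ y, Continuous fun x => f (x, y)}

/-- some Tychonoff space of weight at most `κ` has a discrete subspace of size `l` in `SC_p` -/
def Has (κ l : Cardinal.{u}) : Prop :=
  ∃ (X : Type u) (_ : TopologicalSpace X), T35Space X ∧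
    (∃ B : Set (Set X), IsTopologicalBasis B ∧ #B ≤ κ) ∧
    ∃ D : Set (X × X → ℝ), D ⊆ SC X ∧ DiscreteTopology D ∧ #D = l

section aux
variable {I V : Type u} [LinearOrder I]

/-- functions with the tree topology -/
def Br (I V : Type u) : Type u := I → V

/-- cylinder -/
def cyl (i : I) (x : Br I V) : Set (Br I V) := {y | ∀ j ≤ i, y j = x j}

instance top [Nonempty I] : TopologicalSpace (Br I V) where
  IsOpen U := ∀ x ∈ U, ∃ i, cyl i x ⊆ U
  isOpen_univ := fun _ _ => ⟨Classical.arbitrary I, subset_univ _⟩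
  isOpen_inter := fun s t hs ht x hx => by
    obtain ⟨i, hi⟩ := hs x hx.1
    obtain ⟨k, hk⟩ := ht x hx.2
    exact ⟨max i k, fun y hy => ⟨hi fun j hj => hy j (hj.trans (le_max_left _ _)),
      hk fun j hj => hy j (hj.trans (le_max_right _ _))⟩⟩
  isOpen_sUnion := fun s hs x ⟨t, ht, hx⟩ => by
    obtain ⟨i, hi⟩ := hs t ht x hx
    exact ⟨i, hi.trans (subset_sUnion_of_mem ht)⟩

variable [Nonempty I]

theorem cont {Y : Type*} [TopologicalSpace Y] (g : Br I V → Y) (i : I)
    (h : ∀ x y : Br I V, (∀ j ≤ i, y j = x j) → g y = g x) : Continuous g :=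
  ⟨fun U _ x hx => ⟨i, fun y hy => by
    have : g y = g x := h x y hy
    simpa [mem_preimage, this] using hx⟩⟩

theorem open_cyl (i : I) (x : Br I V) : IsOpen (cyl i x) :=
  fun y hy => ⟨i, fun z hz j hj => (hz j hj).trans (hy j hj)⟩

theorem basis (S : Set (Br I V)) :
    IsTopologicalBasis (range fun p : I × S => ((↑) ⁻¹' cyl p.1 p.2.1 : Set S)) := by
  refine isTopologicalBasis_of_isOpen_of_nhds ?_ ?_
  · rintro _ ⟨p, rfl⟩
    exact (open_cyl _ _).preimage continuous_subtype_val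
  · intro x U hx hU
    obtain ⟨W, hW, rfl⟩ := isOpen_induced_iff.1 hU
    obtain ⟨i, hi⟩ := hW x hx
    exact ⟨_, ⟨(i, x), rfl⟩, fun _ _ => rfl, fun y hy => hi hy⟩

theorem t35 : T35Space (Br I V) := by
  classical
  haveI : T0Space (Br I V) := by
    refine ⟨fun x y hxy => ?_⟩
    funext i
    have := (hxy.mem_open_iff (open_cyl i x)).1 (fun _ _ => rfl)
    exact (this i le_rfl).symm
  haveI : CompletelyRegularSpace (Br I V) := by
    refine ⟨fun x K hK hx => ?_⟩
    obtain ⟨i, hi⟩ := hK.isOpen_compl x hx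
    refine ⟨fun y => if y ∈ cyl i x then 0 else 1, cont _ i fun y z hz => ?_, ?_, ?_⟩
    · have : z ∈ cyl i x ↔ y ∈ cyl i x :=
        ⟨fun h j hj => (hz j hj).symm.trans (h j hj), fun h j hj => (hz j hj).trans (h j hj)⟩
      simp only [this]
    · have : x ∈ cyl i x := fun _ _ => rfl
      simp [this]
    · intro y hy
      have : y ∉ cyl i x := fun h => hi h hy
      simp [this]
  exact {}

/-- the two branches leave `a` at the same place -/
def R (a x y : Br I V) : Prop :=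
  ∃ i, x i ≠ a i ∧ y i ≠ a i ∧ ∀ j < i, x j = a j ∧ y j = a j

omit [Nonempty I] in
theorem R_symm {a x y : Br I V} (h : R a x y) : R a y x :=
  let ⟨i, h1, h2, h3⟩ := h
  ⟨i, h2, h1, fun j hj => (h3 j hj).symm⟩

theorem R_loc (a y : Br I V) :
    ∃ i, ∀ x z : Br I V, (∀ j ≤ i, z j = x j) → R a x y → R a z y := by
  by_cases h : ∃ i, y i ≠ a i
  · obtain ⟨i, hi⟩ := h
    refine ⟨i, fun x z hz ⟨k, h1, h2, h3⟩ => ?_⟩
    have hk : k ≤ i := not_lt.1 fun hlt => hi (h3 i hlt).2
    exact ⟨k, by rw [hz k hk]; exact h1, h2,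
      fun j hj => ⟨by rw [hz j (hj.le.trans hk)]; exact (h3 j hj).1, (h3 j hj).2⟩⟩
  · exact ⟨Classical.arbitrary I, fun x z _ ⟨k, _, h2, _⟩ => absurd ⟨k, h2⟩ h⟩

open Classical in
/-- the separately continuous function attached to `a` -/
noncomputable def F (a : Br I V) (p : Br I V × Br I V) : ℝ := if R a p.1 p.2 then 1 else 0

theorem F_SC (a : Br I V) : F a ∈ SC (Br I V) := by
  have key : ∀ y, Continuous fun x => F a (x, y) := fun y => by
    obtain ⟨i, hi⟩ := R_loc a y
    refine cont _ i fun x z hz => ?_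
    have : R a z y ↔ R a x y := ⟨hi z x fun j hj => (hz j hj).symm, hi x z hz⟩
    unfold F
    rw [show R a (z, y).1 (z, y).2 = R a (x, y).1 (x, y).2 from propext this]
  refine ⟨fun x => ?_, key⟩
  have : (fun y => F a (x, y)) = fun y => F a (y, x) := by
    funext y
    have : R a x y ↔ R a y x := ⟨R_symm, R_symm⟩
    unfold F
    rw [show R a (x, y).1 (x, y).2 = R a (y, x).1 (y, x).2 from propext this]
  rw [this]
  exact key x

omit [Nonempty I] in
theorem F_self (a : Br I V) : F a (a, a) = 0 := by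
  have : ¬ R a a a := fun ⟨_, h, _⟩ => h rfl
  simp [F, this]

omit [Nonempty I] in
theorem F_ne [WellFoundedLT I] {a b : Br I V} (h : a ≠ b) : F b (a, a) = 1 := by
  have hne : {i | a i ≠ b i}.Nonempty := Function.ne_iff.1 h
  have : R b a a := by
    refine ⟨wellFounded_lt.min _ hne, wellFounded_lt.min_mem _ hne, wellFounded_lt.min_mem _ hne,
      fun j hj => ?_⟩
    have : a j = b j := by
      by_contra hc
      exact wellFounded_lt.not_lt_min _ (show j ∈ {i | a i ≠ b i} from hc) hj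
    exact ⟨this, this⟩
  simp [F, this]

/-- the nodes of the tree of initial segments of members of `S` -/
def nodes (S : Set (I → V)) : Set (Σ i : I, (Iic i → V)) :=
  {q | ∃ x ∈ S, ∀ j : Iic q.1, x j = q.2 j}

theorem core' [WellFoundedLT I] (κ : Cardinal.{u}) (S : Set (Br I V)) (hS : #(nodes S) ≤ κ) :
    Has κ #S := by
  have := (t35 : T35Space (Br I V))
  let G : S → S × S → ℝ := fun a p => F a.1 (p.1.1, p.2.1)
  have hG0 : ∀ a, G a (a, a) = 0 := fun a => F_self a.1
  have hG1 : ∀ a b, a ≠ b → G b (a, a) = 1 := fun a b h => F_ne fun e => h (Subtype.ext e)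
  have hinj : Function.Injective G := fun a b hab => by
    by_contra h
    have h1 := hG1 a b h
    rw [← hab, hG0] at h1
    exact zero_ne_one h1
  refine ⟨S, inferInstance, inferInstance, ⟨_, basis S, ?_⟩, range G, ?_, ?_, ?_⟩
  · have hsub : (range fun p : I × S => ((↑) ⁻¹' cyl p.1 p.2.1 : Set S)) ⊆
        (fun q : (Σ i : I, (Iic i → V)) =>
          ({y | ∀ j : Iic q.1, y.1 j = q.2 j} : Set S)) '' nodes S := by
      rintro _ ⟨⟨i, x⟩, rfl⟩
      refine ⟨⟨i, fun j => x.1 j⟩, ⟨x.1, x.2, fun _ => rfl⟩, ?_⟩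
      ext y
      exact ⟨fun h j hj => h ⟨j, hj⟩, fun h j => h j j.2⟩
    exact (mk_le_mk_of_subset hsub).trans (mk_image_le.trans hS)
  · rintro _ ⟨a, rfl⟩
    exact ⟨fun x => ((F_SC a.1).1 x.1).comp continuous_subtype_val,
      fun y => ((F_SC a.1).2 y.1).comp continuous_subtype_val⟩
  · refine discreteTopology_iff_isOpen_singleton.2 ?_
    rintro ⟨_, a, rfl⟩
    refine isOpen_induced_iff.2 ⟨{g | g (a, a) < 1 / 2},
      isOpen_lt (continuous_apply _) continuous_const, ?_⟩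
    ext ⟨_, b, rfl⟩
    simp only [mem_preimage, mem_setOf_eq, mem_singleton_iff, Subtype.mk.injEq]
    constructor
    · intro h
      by_contra hc
      have hab : a ≠ b := fun e => hc (by rw [e])
      rw [hG1 a b hab] at h
      norm_num at h
    · intro h
      rw [h, hG0]
      norm_num
  · exact mk_range_eq _ hinj

theorem core [WellFoundedLT I] (κ : Cardinal.{u}) (hκ : ℵ₀ ≤ κ) (hI : #I ≤ κ)
    (hV : ∀ i : I, #V ^ #(Iic i) ≤ κ) : Has κ (#V ^ #I) := by
  have := core' (I := I) (V := V) κ univ (by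
    refine (mk_set_le _).trans ?_
    rw [mk_sigma]
    refine (sum_le_sum _ (fun _ => κ) fun i => ?_).trans ?_
    · rw [← power_def]
      exact hV i
    · rw [sum_const']
      exact (mul_le_mul' hI le_rfl).trans (mul_eq_self hκ).le)
  rw [mk_univ] at this
  rw [power_def]
  exact this

end aux

theorem gen (κ ν μ : Cardinal.{u}) (hκ : ℵ₀ ≤ κ) (hμ : ℵ₀ ≤ μ) (hle : μ ≤ κ)
    (h : ν ^< μ ≤ κ) : Has κ (ν ^ μ) := by
  have hI : #(μ.ord.ToType) = μ := mk_ord_toType μ
  haveI : Nonempty μ.ord.ToType := mk_ne_zero_iff.1 (by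
    rw [hI]
    exact (aleph0_pos.trans_le hμ).ne')
  have := core (I := μ.ord.ToType) (V := ν.out) κ hκ (hI.le.trans hle) fun i => by
    rw [mk_out]
    refine (le_powerlt ν ?_).trans h
    rw [← Iio_insert]
    exact mk_insert_le.trans_lt (add_lt_of_lt hμ (mk_Iio_toType_ord_lt i)
      (one_lt_aleph0.trans_le hμ))
  rwa [hI, mk_out] at this

/-- consequences -/
theorem consequences (κ : Cardinal.{u}) (hκ : ℵ₀ ≤ κ) :
    (∀ (I V : Type u) [LinearOrder I] [WellFoundedLT I] [Nonempty I] (S : Set (I → V)),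
      #(nodes S) ≤ κ → Has κ #S) ∧
    (∀ ν μ : Cardinal.{u}, ℵ₀ ≤ μ → μ ≤ κ → ν ^< μ ≤ κ → Has κ (ν ^ μ)) ∧
    (2 ^< κ ≤ κ → Has κ (2 ^ κ)) ∧
    (κ.IsStrongLimit → Has κ (2 ^ κ)) ∧
    Has κ (κ ^ ℵ₀) ∧
    ∃ l, κ < l ∧ Has κ l := by
  have h2 : 2 ^< κ ≤ κ → Has κ (2 ^ κ) := gen κ 2 κ hκ hκ le_rfl
  refine ⟨fun I V _ _ _ S hS => core' κ S hS, fun ν μ => gen κ ν μ hκ, h2, fun hs => h2 ?_, ?_, ?_⟩
  · exact powerlt_le.2 fun x hx => (hs.two_power_lt hx).le
  · exact gen κ κ ℵ₀ hκ le_rfl hκ (powerlt_aleph0 hκ).le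
  · have hne : {μ : Cardinal.{u} | κ < 2 ^ μ}.Nonempty := ⟨κ, cantor κ⟩
    set μ := wellFounded_lt.min _ hne
    have hμ : κ < 2 ^ μ := wellFounded_lt.min_mem _ hne
    have hmin : ∀ x < μ, 2 ^ x ≤ κ := fun x hx => not_lt.1 fun hc =>
      wellFounded_lt.not_lt_min _ (show x ∈ {μ : Cardinal.{u} | κ < 2 ^ μ} from hc) hx
    have hle : μ ≤ κ := not_lt.1 fun hc => (cantor κ).not_ge (hmin κ hc)
    have hinf : ℵ₀ ≤ μ := not_lt.1 fun hc =>
      (hμ.trans (power_lt_aleph0 (by exact_mod_cast natCast_lt_aleph0 (n := 2)) hc)).not_ge hκ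
    exact ⟨_, hμ, gen κ 2 μ hκ hinf hle (powerlt_le.2 hmin)⟩

/-- Discrete subspaces of `SC_p` from the branches of a tree with at most `κ` nodes, in ZFC. -/
theorem result (κ : Cardinal.{u}) (I V : Type u) [LinearOrder I] [WellFoundedLT I] [Nonempty I]
    (S : Set (I → V)) (hS : #(nodes S) ≤ κ) : Has κ #S :=
  core' κ S hS

end Pool.Agent.Results.MP_254f8a_gt.Tree
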